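import Pool.Agent.Helper36.SPR.St
import Pool.Agent.Helper36.SPR.St2

set_option autoImplicit false

namespace Pool.Agent.Helper78.SPR

open Finset Pool.Agent.Helper36.SPR
open scoped Pointwise

theorem sum_per (f : ℕ → ℂ) (T : ℕ) (hf : ∀ i, f (T + i) = f i) (r q : ℕ) :
    ∑ i ∈ range (T * q + r), f i = q * ∑ i ∈ range T, f i + ∑ i ∈ range r, f i := by
  induction q with
  | zero => simp
  | succ q ih =>
    have h1 : T * (q + 1) + r = T + (T * q + r) := by ring
    rw [h1, Finset.sum_range_add]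
    simp only [hf]
    rw [ih]
    push_cast
    ring

theorem hMN : StMN := by
  intro n T N _ hT hN h2 a
  have hT0 : (0 : ℝ) < T := by exact_mod_cast hT
  have hN0 : (0 : ℝ) < N := by exact_mod_cast hN
  set f : ℕ → ℂ := fun i => ZMod.stdAddChar (a * 2 ^ i) with hf
  have hper : ∀ i, f (T + i) = f i := by
    intro i
    simp only [hf]
    rw [pow_add, h2, one_mul]
  have hnorm : ∀ i, ‖f i‖ = 1 := by
    intro i
    simp only [hf]
    exact AddChar.norm_apply _ _
  have hdm : T * (N / T) + N % T = N := Nat.div_add_mod N T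
  have hsum : ∑ i ∈ range N, f i = (N / T : ℕ) * ∑ i ∈ range T, f i + ∑ i ∈ range (N % T), f i := by
    conv_lhs => rw [← hdm]
    exact sum_per f T hper (N % T) (N / T)
  have hr : ‖∑ i ∈ range (N % T), f i‖ ≤ T := by
    calc ‖∑ i ∈ range (N % T), f i‖ ≤ ∑ i ∈ range (N % T), ‖f i‖ := norm_sum_le _ _
      _ = (N % T : ℕ) := by simp [hnorm]
      _ ≤ T := by exact_mod_cast (Nat.mod_lt N hT).le
  have hmuT : ‖mu n T a‖ = ‖∑ i ∈ range T, f i‖ / T := by
    unfold mu
    rw [norm_div, Complex.norm_natCast]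
  have hmuN : ‖mu n N a‖ = ‖∑ i ∈ range N, f i‖ / N := by
    unfold mu
    rw [norm_div, Complex.norm_natCast]
  have hS : ‖∑ i ∈ range T, f i‖ = T * ‖mu n T a‖ := by
    rw [hmuT]
    field_simp
  rw [hmuN, hsum]
  have h3 : ‖((N / T : ℕ) : ℂ) * ∑ i ∈ range T, f i + ∑ i ∈ range (N % T), f i‖
      ≤ (N / T : ℕ) * (T * ‖mu n T a‖) + T := by
    refine (norm_add_le _ _).trans ?_
    rw [norm_mul, Complex.norm_natCast, hS]
    exact add_le_add le_rfl hr
  have h4 : ((N / T : ℕ) : ℝ) * T ≤ N := by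
    have : N / T * T ≤ N := Nat.div_mul_le_self N T
    exact_mod_cast this
  have h5 : 0 ≤ ‖mu n T a‖ := norm_nonneg _
  rw [div_le_iff₀ hN0]
  calc _ ≤ ((N / T : ℕ) : ℝ) * (T * ‖mu n T a‖) + T := h3
    _ = (((N / T : ℕ) : ℝ) * T) * ‖mu n T a‖ + T := by ring
    _ ≤ N * ‖mu n T a‖ + T := by
        have := mul_le_mul_of_nonneg_right h4 h5
        linarith
    _ = (‖mu n T a‖ + (T : ℝ) / N) * N := by
        field_simp

end Pool.Agent.Helper78.SPR
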