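import Pool.Agent.Helper36.SPR.St

set_option autoImplicit false

namespace Pool.Agent.Helper78.SPR

open Finset Pool.Agent.Helper36.SPR
open scoped Pointwise

theorem card_vl {n : ℕ} (S : Finset ((ZMod n)ˣ)) : (vl S).card = S.card := by
  unfold vl
  exact Finset.card_image_of_injective _ Units.val_injective

theorem mem_vl {n : ℕ} {S : Finset ((ZMod n)ˣ)} {x : ZMod n} (h : x ∈ vl S) :
    ∃ u ∈ S, (u : ZMod n) = x := by
  unfold vl at h
  simpa using h

theorem hSP (hGC : StGC) (hRT : StRT) (hPV : StPV) (hCP : StCP) : StSP := by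
  intro p _ S M hp hS hM h1 h2
  haveI : Fact p.Prime := ⟨hp⟩
  have hM0 : (0 : ℝ) < M := by linarith
  have hM1 : (1 : ℝ) ≤ M := by linarith
  have hSpos : (0 : ℝ) < S.card := by
    have := hS.card_pos
    exact_mod_cast this
  obtain ⟨B, hB1, -, hB3⟩ := hRT p S M hS h1 h2
  by_cases hBc : B.card < 2
  · left
    have hb : (B.card : ℝ) ≤ 1 := by
      have : B.card ≤ 1 := by omega
      exact_mod_cast this
    have h3 : (M : ℝ) ≤ M ^ 100 := by
      calc M = M ^ 1 := (pow_one M).symm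
        _ ≤ M ^ 100 := pow_le_pow_right₀ hM1 (by norm_num)
    linarith
  by_cases hSs : (S.card : ℝ) < 2 * M ^ 97
  · left
    have h3 : 2 * M ^ 97 ≤ M ^ 100 := by
      have h4 : M ^ 98 ≤ M ^ 100 := pow_le_pow_right₀ hM1 (by norm_num)
      have h5 : 2 * M ^ 97 ≤ M ^ 98 := by
        have h6 : M ^ 98 = M * M ^ 97 := by ring
        rw [h6]
        exact mul_le_mul_of_nonneg_right hM (by positivity)
      linarith
    linarith
  push Not at hBc hSs
  have hvS : (vl S).Nonempty := by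
    rw [← Finset.card_pos, card_vl]
    exact hS.card_pos
  have hcS : ((vl S).card : ℝ) = S.card := by rw [card_vl]
  obtain ⟨hG1, hG2⟩ := hGC p (vl S) hvS
  obtain ⟨hG3, hG4⟩ := hG2 M (by rw [hcS]; exact h1)
  have hL0 : 2 * M ^ 3 ≤ M ^ 4 := by
    have h6 : M ^ 4 = M * M ^ 3 := by ring
    rw [h6]
    exact mul_le_mul_of_nonneg_right hM (by positivity)
  have hL0p : 0 < 2 * M ^ 3 := by positivity
  -- elements of B
  have hgB : ∀ x ∈ vl B, Gd (vl S) (2 * M ^ 3) 1 x := by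
    intro x hx
    obtain ⟨u, hu, rfl⟩ := mem_vl hx
    exact hB3 u hu
  have hgD : ∀ x ∈ vl B - vl B, Gd (vl S) ((2 * M ^ 3) * (2 * M ^ 3)) (1 + 1) x := by
    intro x hx
    obtain ⟨y, hy, z, hz, rfl⟩ := Finset.mem_sub.mp hx
    exact (hG1 _ _ _ _ _ _ (hgB y hy) (hgB z hz)).2.1
  have hCP' : ∀ D : Finset (ZMod p),
      (∀ c ∈ D, ((vl S + dil c (vl S)).card : ℝ) ≤ M ^ 97 * (vl S).card) →
      (D.card : ℝ) ≤ 2 * M ^ 97 * (vl S).card :=
    hCP p (vl S) (M ^ 97) hp (by positivity) (by rw [hcS]; exact hSs)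
  have hdiff : ∀ x ∈ vl B, ∀ y ∈ vl B, x ≠ y → IsUnit (x - y) := by
    intro x _ y _ hxy
    exact isUnit_iff_ne_zero.mpr (sub_ne_zero.mpr hxy)
  rcases hPV p (vl B) (by rw [card_vl]; exact hBc) hdiff with hcase | hcase
  · right
    have hD : ((Finset.univ : Finset (ZMod p)).card : ℝ) ≤ 2 * M ^ 97 * (vl S).card := by
      apply hCP'
      intro c _
      obtain ⟨a, ha, b, hb, hbu, hab⟩ := hcase c
      have h3 := hG4 _ _ _ _ a b c hbu hab (hgD a ha) (hgD b hb)
      refine h3.trans ?_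
      apply mul_le_mul_of_nonneg_right _ (by positivity)
      have h4 : (2 * M ^ 3) * (2 * M ^ 3) * ((2 * M ^ 3) * (2 * M ^ 3)) ≤ M ^ 16 := by
        calc (2 * M ^ 3) * (2 * M ^ 3) * ((2 * M ^ 3) * (2 * M ^ 3)) = (2 * M ^ 3) ^ 4 := by ring
          _ ≤ (M ^ 4) ^ 4 := pow_le_pow_left₀ hL0p.le hL0 4
          _ = M ^ 16 := by ring
      calc (2 * M ^ 3) * (2 * M ^ 3) * ((2 * M ^ 3) * (2 * M ^ 3)) * M ^ (2 * (1 + 1 + (1 + 1)))
          ≤ M ^ 16 * M ^ 8 := mul_le_mul_of_nonneg_right h4 (by positivity)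
        _ = M ^ 24 := by ring
        _ ≤ M ^ 97 := pow_le_pow_right₀ hM1 (by norm_num)
    have hc : ((Finset.univ : Finset (ZMod p)).card : ℝ) = p := by
      rw [Finset.card_univ, ZMod.card]
    rw [hc, hcS] at hD
    refine hD.trans ?_
    apply mul_le_mul_of_nonneg_right _ hSpos.le
    have h4 : M ^ 98 ≤ M ^ 100 := pow_le_pow_right₀ hM1 (by norm_num)
    have h5 : 2 * M ^ 97 ≤ M ^ 98 := by
      have h6 : M ^ 98 = M * M ^ 97 := by ring
      rw [h6]
      exact mul_le_mul_of_nonneg_right hM (by positivity)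
    linarith
  · left
    obtain ⟨a, ha, b, hb, -, hcard⟩ := hcase
    have hga := hgD a ha
    have hgb := hgD b hb
    have hgab := (hG1 _ _ _ _ _ _ hga hgb).1
    have hD : ((dil b (vl B) + dil (a + b) (vl B)).card : ℝ) ≤ 2 * M ^ 97 * (vl S).card := by
      apply hCP'
      intro c hc
      obtain ⟨y, hy, z, hz, rfl⟩ := Finset.mem_add.mp hc
      unfold dil at hy hz
      obtain ⟨u, hu, rfl⟩ := Finset.mem_image.mp hy
      obtain ⟨v, hv, rfl⟩ := Finset.mem_image.mp hz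
      have k1 := (hG1 _ _ _ _ _ _ (hgB u hu) hgb).2.2
      have k2 := (hG1 _ _ _ _ _ _ (hgB v hv) hgab).2.2
      have k3 := (hG1 _ _ _ _ _ _ k1 k2).1
      have k4 := hG3 _ _ _ k3
      refine k4.trans ?_
      apply mul_le_mul_of_nonneg_right _ (by positivity)
      have h4 : (2 * M ^ 3) ^ 14 ≤ M ^ 56 := by
        calc (2 * M ^ 3) ^ 14 ≤ (M ^ 4) ^ 14 := pow_le_pow_left₀ hL0p.le hL0 14
          _ = M ^ 56 := by ring
      calc _ = (2 * M ^ 3) ^ 14 * M ^ 25 := by ring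
        _ ≤ M ^ 56 * M ^ 25 := mul_le_mul_of_nonneg_right h4 (by positivity)
        _ = M ^ 81 := by ring
        _ ≤ M ^ 97 := pow_le_pow_right₀ hM1 (by norm_num)
    rw [hcS] at hD
    have hcard' : ((vl B).card : ℝ) * (vl B).card ≤ 2 * M ^ 97 * S.card := by
      have h3 : (((vl B).card * (vl B).card : ℕ) : ℝ) ≤ ((dil b (vl B) + dil (a + b) (vl B)).card : ℝ) := by
        exact_mod_cast hcard
      push_cast at h3
      linarith
    rw [card_vl] at hcard'
    have h5 : (S.card : ℝ) * S.card ≤ 8 * M ^ 97 * S.card := by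
      have h6 : (S.card : ℝ) * S.card ≤ (2 * B.card) * (2 * B.card) :=
        mul_le_mul hB1 hB1 hSpos.le (by positivity)
      nlinarith
    have h7 : (S.card : ℝ) ≤ 8 * M ^ 97 := le_of_mul_le_mul_right h5 hSpos
    have h8 : (8 : ℝ) ≤ M ^ 3 := by
      calc (8 : ℝ) = 2 ^ 3 := by norm_num
        _ ≤ M ^ 3 := pow_le_pow_left₀ (by norm_num) hM 3
    calc (S.card : ℝ) ≤ 8 * M ^ 97 := h7
      _ ≤ M ^ 3 * M ^ 97 := mul_le_mul_of_nonneg_right h8 (by positivity)
      _ = M ^ 100 := by ring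

end Pool.Agent.Helper78.SPR
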